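import Pool.Agent.W4.VC.Stms
import Pool.Agent.H510R2.Div

/-!
# Classes of coprime pairs where a form is divisible by `N`
-/

set_option autoImplicit false

namespace Pool.Agent.W101.VC

open Finset Polynomial Pool.Agent.W4.VC

lemma split (a b : ℕ) (hab : Nat.Coprime a b) (N : ℕ) : N ≠ 0 →
    ∃ N1 N2 : ℕ, N = N1 * N2 ∧ Nat.Coprime N1 N2 ∧ Nat.Coprime N1 b ∧ Nat.Coprime N2 a := by
  induction N using Nat.recOnPrimeCoprime with
  | zero => intro h; exact absurd rfl h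
  | prime_pow p n hp =>
    intro _
    by_cases h : p ∣ b
    · refine ⟨1, p ^ n, by simp, by simp, by simp, ?_⟩
      apply Nat.Coprime.pow_left
      rw [hp.coprime_iff_not_dvd]
      intro h'
      exact hp.one_lt.ne' (Nat.eq_one_of_dvd_coprimes hab h' h)
    · refine ⟨p ^ n, 1, by simp, by simp, ?_, by simp⟩
      exact Nat.Coprime.pow_left _ ((hp.coprime_iff_not_dvd).2 h)
  | coprime A B hA hB hAB ihA ihB =>
    intro _
    obtain ⟨A1, A2, hA0, hA12, hA1, hA2⟩ := ihA (by omega)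
    obtain ⟨B1, B2, hB0, hB12, hB1, hB2⟩ := ihB (by omega)
    refine ⟨A1 * B1, A2 * B2, by rw [hA0, hB0]; ring, ?_, hA1.mul_left hB1, hA2.mul_left hB2⟩
    have h1 : Nat.Coprime A1 B2 :=
      Nat.Coprime.coprime_dvd_left ⟨A2, hA0⟩ (Nat.Coprime.coprime_dvd_right ⟨B1, by rw [hB0]; ring⟩ hAB)
    have h2 : Nat.Coprime B1 A2 :=
      (Nat.Coprime.coprime_dvd_left ⟨A1, by rw [hA0]; ring⟩
        (Nat.Coprime.coprime_dvd_right ⟨B2, hB0⟩ hAB)).symm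
    exact (hA12.mul_right h1).mul_left (h2.mul_right hB12)

lemma hom_mul (f : ℤ[X]) (n : ℕ) (hf : f.natDegree ≤ n) (t b : ℤ) :
    hom f n (t * b) b = b ^ n * f.eval t := by
  rw [Polynomial.eval_eq_sum_range' (Nat.lt_succ_of_le hf) t]
  unfold hom
  rw [mul_sum]
  apply sum_congr rfl
  intro j hj
  rw [mem_range] at hj
  have h : b ^ n = b ^ j * b ^ (n - j) := by
    rw [← pow_add]
    congr 1
    omega
  rw [h, mul_pow]
  ring

lemma hom_congr (f : ℤ[X]) (n : ℕ) (M a a' b : ℤ) (h : M ∣ a - a') :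
    M ∣ hom f n a b - hom f n a' b := by
  unfold hom
  rw [← sum_sub_distrib]
  apply dvd_sum
  intro j _
  have h1 : M ∣ a ^ j - a' ^ j := h.trans (sub_dvd_pow_sub_pow a a' j)
  have h2 : f.coeff j * a ^ j * b ^ (n - j) - f.coeff j * a' ^ j * b ^ (n - j)
      = (f.coeff j * b ^ (n - j)) * (a ^ j - a' ^ j) := by ring
  rw [h2]
  exact h1.mul_left _

lemma half (f : ℤ[X]) (n : ℕ) (hf : f.natDegree ≤ n) (M : ℕ) (hM : M ≠ 0) (a b : ℤ)
    (hb : IsCoprime (M : ℤ) b) (h : (M : ℤ) ∣ hom f n a b) :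
    ∃ t : ℕ, t < M ∧ (M : ℤ) ∣ (t : ℤ) * b - a ∧ (M : ℤ) ∣ f.eval (t : ℤ) := by
  have hb' := hb
  obtain ⟨x, y, hxy⟩ := hb
  have hM' : (0 : ℤ) < M := by exact_mod_cast Nat.pos_of_ne_zero hM
  have hnn := Int.emod_nonneg (y * a) hM'.ne'
  have hlt := Int.emod_lt_of_pos (y * a) hM'
  obtain ⟨t, ht⟩ := Int.eq_ofNat_of_zero_le hnn
  have h1 : (M : ℤ) ∣ (t : ℤ) * b - a := by
    have h0 : (M : ℤ) ∣ y * a - t := by
      rw [← ht]
      exact Int.dvd_self_sub_emod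
    obtain ⟨z, hz⟩ := h0
    refine ⟨-(z * b) - x * a, ?_⟩
    have h2 : (t : ℤ) = y * a - M * z := by linarith
    rw [h2]
    have h3 : y * b = 1 - x * M := by linarith
    calc (y * a - M * z) * b - a = (y * b) * a - M * z * b - a := by ring
      _ = M * (-(z * b) - x * a) := by rw [h3]; ring
  refine ⟨t, ?_, h1, ?_⟩
  · rw [ht] at hlt
    exact_mod_cast hlt
  · have h2 := hom_congr f n M ((t : ℤ) * b) a b h1
    have h3 : (M : ℤ) ∣ hom f n ((t : ℤ) * b) b := by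
      have := dvd_add h2 h
      rwa [sub_add_cancel] at this
    rw [hom_mul f n hf] at h3
    exact (hb'.pow_right (n := n)).dvd_of_dvd_mul_left h3

/-- the labels of a pair -/
def Lab (f g : ℤ[X]) (N : ℕ) (p : ℤ × ℤ) (L : ℕ × ℕ × ℕ) : Prop :=
  L.1 ∣ N ∧ Nat.Coprime L.1 (N / L.1) ∧ L.2.1 < L.1 ∧ L.2.2 < N / L.1 ∧
    (L.1 : ℤ) ∣ (L.2.1 : ℤ) * p.2 - p.1 ∧ ((N / L.1 : ℕ) : ℤ) ∣ (L.2.2 : ℤ) * p.1 - p.2 ∧
    (L.1 : ℤ) ∣ f.eval (L.2.1 : ℤ) ∧ ((N / L.1 : ℕ) : ℤ) ∣ g.eval (L.2.2 : ℤ)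

lemma exists_lab (f g : ℤ[X]) (n : ℕ) (hf : f.natDegree ≤ n) (hg : g.natDegree ≤ n)
    (hfg : ∀ a b : ℤ, hom g n b a = hom f n a b) (N : ℕ) (hN : N ≠ 0) (p : ℤ × ℤ)
    (hp : IsCoprime p.1 p.2) (h : (N : ℤ) ∣ hom f n p.1 p.2) : ∃ L, Lab f g N p L := by
  obtain ⟨N1, N2, hN12, hc, h1, h2⟩ := split p.1.natAbs p.2.natAbs
    (Int.isCoprime_iff_gcd_eq_one.1 hp) N hN
  have hN1 : N1 ≠ 0 := by
    rintro rfl
    exact hN (by rw [hN12, zero_mul])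
  have hN2 : N2 ≠ 0 := by
    rintro rfl
    exact hN (by rw [hN12, mul_zero])
  have hdiv : N / N1 = N2 := by
    rw [hN12]
    exact Nat.mul_div_cancel_left _ (Nat.pos_of_ne_zero hN1)
  have h1' : IsCoprime (N1 : ℤ) p.2 := by
    rw [Int.isCoprime_iff_gcd_eq_one]
    exact h1
  have h2' : IsCoprime (N2 : ℤ) p.1 := by
    rw [Int.isCoprime_iff_gcd_eq_one]
    exact h2
  have hd1 : (N1 : ℤ) ∣ hom f n p.1 p.2 := by
    refine dvd_trans ?_ h
    rw [hN12]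
    push_cast
    exact ⟨_, rfl⟩
  have hd2 : (N2 : ℤ) ∣ hom g n p.2 p.1 := by
    rw [hfg]
    refine dvd_trans ?_ h
    rw [hN12]
    push_cast
    exact ⟨N1, by ring⟩
  obtain ⟨t, ht1, ht2, ht3⟩ := half f n hf N1 hN1 p.1 p.2 h1' hd1
  obtain ⟨u, hu1, hu2, hu3⟩ := half g n hg N2 hN2 p.2 p.1 h2' hd2
  refine ⟨(N1, t, u), ⟨N2, hN12⟩, ?_, ht1, ?_, ht2, ?_, ht3, ?_⟩
  · simp only [hdiv]
    exact hc
  · simp only [hdiv]
    exact hu1
  · simp only [hdiv]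
    exact hu2
  · simp only [hdiv]
    exact hu3

lemma lab_eq (f g : ℤ[X]) (N : ℕ) (p p' : ℤ × ℤ) (L : ℕ × ℕ × ℕ) (h : Lab f g N p L)
    (h' : Lab f g N p' L) : (N : ℤ) ∣ p.1 * p'.2 - p'.1 * p.2 := by
  obtain ⟨h1, h2, -, -, h3, h4, -, -⟩ := h
  obtain ⟨-, -, -, -, h3', h4', -, -⟩ := h'
  have e1 : (L.1 : ℤ) ∣ p.1 * p'.2 - p'.1 * p.2 := by
    obtain ⟨z, hz⟩ := h3
    obtain ⟨z', hz'⟩ := h3'
    refine ⟨z' * p.2 - z * p'.2, ?_⟩
    have e : p.1 * p'.2 - p'.1 * p.2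
        = ((L.2.1 : ℤ) * p'.2 - p'.1) * p.2 - ((L.2.1 : ℤ) * p.2 - p.1) * p'.2 := by ring
    rw [e, hz, hz']
    ring
  have e2 : ((N / L.1 : ℕ) : ℤ) ∣ p.1 * p'.2 - p'.1 * p.2 := by
    obtain ⟨z, hz⟩ := h4
    obtain ⟨z', hz'⟩ := h4'
    refine ⟨z * p'.1 - z' * p.1, ?_⟩
    have e : p.1 * p'.2 - p'.1 * p.2
        = ((L.2.2 : ℤ) * p.1 - p.2) * p'.1 - ((L.2.2 : ℤ) * p'.1 - p'.2) * p.1 := by ring
    rw [e, hz, hz']
    ring
  have e3 : (N : ℤ) = (L.1 : ℤ) * ((N / L.1 : ℕ) : ℤ) := by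
    exact_mod_cast (Nat.mul_div_cancel' h1).symm
  rw [e3]
  exact (Nat.isCoprime_iff_coprime.2 h2).mul_dvd e1 e2

theorem t_CLS (hroot : S_ROOT) (hrev : S_REV) : S_CLS := by
  classical
  intro f n hf ε hε
  obtain ⟨g, hg, hfg⟩ := hrev f n hf
  obtain ⟨C1, hC1, hR1⟩ := hroot f hf.1 (ε / 2) (by positivity)
  obtain ⟨C2, hC2, hR2⟩ := hroot g hg.1 (ε / 2) (by positivity)
  obtain ⟨C3, hC3, hD⟩ := Pool.Agent.H510R2.divisor_bound (ε / 2) (by positivity)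
  refine ⟨C3 * (C1 * C2), by positivity, ?_⟩
  intro N hN
  have hN0 : N ≠ 0 := by omega
  have hex := exists_lab f g n hf.2.1 hg.2.1 hfg N hN0
  refine ⟨fun p => if h : ∃ L, Lab f g N p L then h.choose else (0, 0, 0),
    N.divisors.biUnion (fun d => ({d} : Finset ℕ) ×ˢ
      (((range d).filter (fun t : ℕ => (d : ℤ) ∣ f.eval (t : ℤ))) ×ˢ
        ((range (N / d)).filter (fun u : ℕ => ((N / d : ℕ) : ℤ) ∣ g.eval (u : ℤ))))),
    ?_, ?_, ?_⟩
  · have h1 : ((N.divisors.biUnion (fun d => ({d} : Finset ℕ) ×ˢ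
        (((range d).filter (fun t : ℕ => (d : ℤ) ∣ f.eval (t : ℤ))) ×ˢ
        ((range (N / d)).filter (fun u : ℕ => ((N / d : ℕ) : ℤ) ∣ g.eval (u : ℤ)))))).card : ℝ)
        ≤ ∑ d ∈ N.divisors, (C1 * C2) * (N : ℝ) ^ (ε / 2) := by
      refine le_trans (Nat.cast_le.2 card_biUnion_le) ?_
      rw [Nat.cast_sum]
      apply sum_le_sum
      intro d hd
      rw [Nat.mem_divisors] at hd
      have hd0 : d ≠ 0 := by
        rintro rfl
        exact hN0 (zero_dvd_iff.1 hd.1)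
      have hq0 : N / d ≠ 0 := by
        intro h
        have := Nat.div_mul_cancel hd.1
        rw [h, zero_mul] at this
        exact hN0 this.symm
      rw [card_product, card_product, card_singleton, one_mul, Nat.cast_mul]
      have e1 := hR1 d (by omega)
      have e2 := hR2 (N / d) (Nat.pos_of_ne_zero hq0)
      calc _ ≤ (C1 * (d : ℝ) ^ (ε / 2)) * (C2 * ((N / d : ℕ) : ℝ) ^ (ε / 2)) :=
            mul_le_mul e1 e2 (Nat.cast_nonneg _) (by positivity)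
        _ = (C1 * C2) * ((d : ℝ) ^ (ε / 2) * ((N / d : ℕ) : ℝ) ^ (ε / 2)) := by ring
        _ = (C1 * C2) * (N : ℝ) ^ (ε / 2) := by
            rw [← Real.mul_rpow (Nat.cast_nonneg _) (Nat.cast_nonneg _), ← Nat.cast_mul,
              Nat.mul_div_cancel' hd.1]
    refine h1.trans ?_
    rw [sum_const, nsmul_eq_mul]
    have h2 : (N : ℝ) ^ ε = (N : ℝ) ^ (ε / 2) * (N : ℝ) ^ (ε / 2) := by
      rw [← Real.rpow_add (by exact_mod_cast Nat.pos_of_ne_zero hN0)]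
      congr 1
      ring
    rw [h2]
    have h3 := mul_le_mul_of_nonneg_right (hD N hN)
      (show 0 ≤ C1 * C2 * (N : ℝ) ^ (ε / 2) by positivity)
    calc _ ≤ C3 * (N : ℝ) ^ (ε / 2) * (C1 * C2 * (N : ℝ) ^ (ε / 2)) := h3
      _ = _ := by ring
  · intro p hp hd
    have h := hex p hp hd
    simp only [dif_pos h]
    obtain ⟨h1, h2, h3, h4, h5, h6, h7, h8⟩ := h.choose_spec
    rw [mem_biUnion]
    refine ⟨h.choose.1, Nat.mem_divisors.2 ⟨h1, hN0⟩, ?_⟩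
    rw [mem_product, mem_product, mem_filter, mem_filter, mem_range, mem_range]
    exact ⟨mem_singleton_self _, ⟨h3, h7⟩, h4, h8⟩
  · intro p p' hp hp' hd hd' hk
    have h := hex p hp hd
    have h' := hex p' hp' hd'
    simp only [dif_pos h, dif_pos h'] at hk
    have e1 := h.choose_spec
    have e2 := h'.choose_spec
    rw [← hk] at e2
    exact lab_eq f g N p p' _ e1 e2

end Pool.Agent.W101.VC
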